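import Pool.Agent.Helper60.T3.GoalsI

/-!
# Project T3 (MP_a41896_nt), packet CLAM: the relation for `z'(w3)`
-/

set_option autoImplicit false

open MvPolynomial

namespace Pool.Agent.Helper48.T3.CLAM

open WeierstrassCurve
open Pool.Agent.Helper29.BL Pool.Agent.Helper42.SG
open Pool.Agent.Helper60.T3

noncomputable section

/-- `ψ(P)² = B(x(P))` -/
theorem ps_sq {F : Type} [Field F] {W : Affine F} (P : W.Point) (hP : P ≠ 0) :
    ps P ^ 2 = Bf W (xc P) := by
  cases P with
  | zero => exact absurd rfl hP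
  | some x y h =>
    have h1 := (Affine.equation_iff x y).mp h.1
    simp only [ps, xc, Bf, WeierstrassCurve.b₂, WeierstrassCurve.b₄, WeierstrassCurve.b₆]
    linear_combination 4 * h1

theorem zd_zero {L : Type} [Field L] (D : L → L) {W : Affine L} :
    zd D (0 : W.Point) = 0 := by
  have h : ps (0 : W.Point) = 0 := rfl
  rw [zd, h, div_zero]

/-- chain rule -/
theorem chain {κ L : Type} [Field κ] [Field L] [Algebra κ L] (D : Derivation κ L L) (y x : L)
    (Q : MvPolynomial (Fin 2) κ) :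
    D (aeval ![y, x] Q) = aeval ![y, x] (pderiv 0 Q) * D y + aeval ![y, x] (pderiv 1 Q) * D x := by
  induction Q using MvPolynomial.induction_on with
  | C a => simp
  | add p q hp hq => rw [map_add, map_add, hp, hq, map_add, map_add, map_add, map_add]; ring
  | mul_X p i hp =>
    rw [map_mul, Derivation.leibniz, hp, aeval_X, pderiv_mul, pderiv_mul, map_add, map_add,
      map_mul, map_mul, map_mul, map_mul, aeval_X]
    fin_cases i
    · simp [pderiv_X]
      ring
    · simp [pderiv_X]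
      ring

theorem deg_pderiv {κ : Type} [Field κ] {σ : Type} [DecidableEq σ] (i j : σ)
    (p : MvPolynomial σ κ) : degreeOf j (pderiv i p) ≤ degreeOf j p := by
  rw [degreeOf_le_iff]
  intro m hm
  rw [mem_support_iff, coeff_pderiv] at hm
  have h1 : m + Finsupp.single i 1 ∈ p.support := by
    rw [mem_support_iff]
    intro h0
    apply hm
    rw [h0, zero_mul]
  have h2 := (degreeOf_le_iff.mp (le_refl (degreeOf j p))) _ h1
  have h3 : m j ≤ (m + Finsupp.single i 1 : σ →₀ ℕ) j := by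
    rw [Finsupp.add_apply]
    exact Nat.le_add_right _ _
  omega

/-- a nonzero polynomial without the second variable does not vanish at a transcendental point -/
theorem deg1_pos {κ L : Type} [Field κ] [Field L] [Algebra κ L] (y x : L)
    (hy : Transcendental κ y) (R : MvPolynomial (Fin 2) κ) (hR : R ≠ 0)
    (h0 : aeval ![y, x] R = 0) : 1 ≤ R.degreeOf 1 := by
  by_contra hd
  have hd0 : R.degreeOf 1 = 0 := by omega
  have hv : (1 : Fin 2) ∉ R.vars := by
    intro hi
    rw [vars_def, Multiset.mem_toFinset, ← Multiset.count_pos, ← degreeOf_def] at hi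
    omega
  let p : Polynomial κ := aeval ![Polynomial.X, 0] R
  have hRp : Polynomial.aeval (X 0 : MvPolynomial (Fin 2) κ) p = R := by
    have h1 : ((Polynomial.aeval (X 0 : MvPolynomial (Fin 2) κ)).comp
        (aeval ![Polynomial.X, 0] : MvPolynomial (Fin 2) κ →ₐ[κ] Polynomial κ)).toRingHom R =
        (RingHom.id (MvPolynomial (Fin 2) κ)) R := by
      refine hom_congr_vars ?_ ?_ rfl
      · ext a
        simp [algebraMap_eq]
      · intro i hi _
        fin_cases i
        · simp
        · exact absurd hi hv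
    exact h1
  have hp0 : Polynomial.aeval y p = 0 := by
    rw [← hRp] at h0
    rw [← Polynomial.aeval_algHom_apply, aeval_X] at h0
    simpa using h0
  have hp : p ≠ 0 := by
    intro h
    apply hR
    rw [← hRp, h, map_zero]
  exact hy ⟨p, hp, hp0⟩

/-- `D` kills the algebraic elements -/
theorem trans_of {κ L : Type} [Field κ] [IsAlgClosed κ] [Field L] [Algebra κ L]
    (D : Derivation κ L L) (y : L) (h : D y ≠ 0) : Transcendental κ y := by
  intro hy
  apply h
  have hi : IsIntegral κ y := hy.isIntegral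
  have h1 : (minpoly κ y).degree = 1 :=
    IsAlgClosed.degree_eq_one_of_irreducible κ (minpoly.irreducible hi)
  obtain ⟨a, ha⟩ := minpoly.mem_range_of_degree_eq_one κ y h1
  rw [← ha, Derivation.map_algebraMap]

/-- `B(X_i)` over `κ` -/
def BX {k κ : Type} [Field k] [Field κ] [Algebra k κ] (W : Affine k) (i : Fin 3) :
    MvPolynomial (Fin 3) κ :=
  C 4 * X i ^ 3 + C (algebraMap k κ W.b₂) * X i ^ 2 + C (2 * algebraMap k κ W.b₄) * X i +
    C (algebraMap k κ W.b₆)

theorem deg_BX {k κ : Type} [Field k] [Field κ] [Algebra k κ] (W : Affine k) (i j : Fin 3) :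
    degreeOf j (BX (κ := κ) W i) ≤ if i = j then 3 else 0 := by
  unfold BX
  refine (degreeOf_add_le _ _ _).trans (max_le ((degreeOf_add_le _ _ _).trans (max_le
    ((degreeOf_add_le _ _ _).trans (max_le ?_ ?_)) ?_)) ?_)
  · refine (degreeOf_C_mul_le _ _ _).trans ((degreeOf_pow_le _ _ _).trans ?_)
    rw [degreeOf_X]
    split_ifs <;> simp_all
  · refine (degreeOf_C_mul_le _ _ _).trans ((degreeOf_pow_le _ _ _).trans ?_)
    rw [degreeOf_X]
    split_ifs <;> simp_all
  · refine (degreeOf_C_mul_le _ _ _).trans ?_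
    rw [degreeOf_X]
    split_ifs <;> simp_all
  · rw [degreeOf_C]
    exact Nat.zero_le _

theorem ev_BX {k κ L : Type} [Field k] [Field κ] [Field L] [Algebra k κ] [Algebra κ L]
    [Algebra k L] [IsScalarTower k κ L] (W : Affine k) (i : Fin 3) (v : Fin 3 → L) :
    aeval v (BX (κ := κ) W i) = Bf (WL L W) (v i) := by
  unfold BX Bf
  simp only [map_add, map_mul, map_pow, aeval_X, aeval_C, WL, WeierstrassCurve.map_b₂,
    WeierstrassCurve.map_b₄, WeierstrassCurve.map_b₆, ← IsScalarTower.algebraMap_apply k κ L,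
    map_ofNat]

theorem rel_xx (κ : Type) [Field κ] {L : Type} [Field L] [Algebra κ L] (x : L) :
    Rel κ x x 1 1 := by
  refine ⟨X 0 - X 1, ?_, ?_, ?_, ?_⟩
  · intro h
    have h1 := congrArg (aeval ![(1 : κ), 0]) h
    simp at h1
  · refine (degreeOf_sub_le _ _ _).trans (max_le ?_ ?_)
    · rw [degreeOf_X]; split_ifs <;> omega
    · rw [degreeOf_X]; split_ifs <;> omega
  · refine (degreeOf_sub_le _ _ _).trans (max_le ?_ ?_)
    · rw [degreeOf_X]; split_ifs <;> omega
    · rw [degreeOf_X]; split_ifs <;> omega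
  · simp

theorem rel_mono {κ : Type} [Field κ] {L : Type} [Field L] [Algebra κ L] {f x : L}
    {u v u' v' : ℕ} (h : Rel κ f x u v) (hu : u ≤ u') (hv : v ≤ v') : Rel κ f x u' v' := by
  obtain ⟨P, h1, h2, h3, h4⟩ := h
  exact ⟨P, h1, h2.trans hu, h3.trans hv, h4⟩

theorem t (hF : S_FDEG) (hI : S_IRRD) (hG : S_GENQ) (hE : S_ELM) (hA : S_DADD) : S_CLAM := by
  intro D0
  refine ⟨4 * (8 * D0 ^ 2) * (2 * (8 * D0 ^ 2) + 8) + 4 * (8 * D0 ^ 2) + 8 * D0 ^ 2 + 1, ?_⟩
  intro k κ L _ _ _ _ _ _ _ _ _ _ W2 W3 _ _ e g g' a2 b2 a3 b3 D hCD hDF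
  have : CharZero κ := charZero_of_injective_algebraMap (algebraMap k κ).injective
  set w := (2 ^ e) • a3 - b3 with hw
  set x := xc a2 with hx
  set y := xc w with hy
  set l := zd D w with hl
  -- `l ≠ 0`
  have hl0 : l ≠ 0 := by
    intro h0
    apply hDF.ne
    have h1 : zd D b3 = 2 ^ e * zd D a3 := by
      have := hDF.zw3
      rw [← hw, ← hl, h0] at this
      linear_combination this
    rw [h1]
    have : (4 : L) ^ e = (2 ^ e) ^ 2 := by
      rw [← pow_mul, mul_comm e 2, pow_mul]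
      norm_num
    rw [this]
    ring
  have hw0 : w ≠ 0 := by
    intro h
    apply hl0
    rw [hl, h]
    exact zd_zero D
  have hps : ps w ≠ 0 := by
    intro h
    apply hl0
    rw [hl, zd, h, div_zero]
  have hDy : D y = ps w * l := by
    rw [hl, zd, hy]
    field_simp
  have hDy0 : D y ≠ 0 := by
    rw [hDy]
    exact mul_ne_zero hps hl0
  have htry : Transcendental κ y := trans_of D y hDy0
  have hps2 : ps a2 ≠ 0 := by
    intro h
    have := hDF.one
    rw [zd, h, div_zero] at this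
    exact zero_ne_one this
  have hDx : D x = ps a2 := by
    have := hDF.one
    rw [zd, div_eq_one_iff_eq hps2] at this
    exact this
  refine ⟨hw0, ?_, ?_⟩
  · -- `2^e a3 + b3 ≠ 0`
    intro h
    have hadd := hA k L W3 (D.restrictScalars k)
    have e1 : ∀ P Q : (WL L W3).Point, zd D (P + Q) = zd D P + zd D Q := hadd
    have e2 : zd D (b3 + b3) = zd D b3 + zd D b3 := e1 _ _
    have e3 : zd D (-(b3 + b3)) = -(zd D b3 + zd D b3) := by
      have h1 := e1 (b3 + b3) (-(b3 + b3))
      rw [add_neg_cancel, e2] at h1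
      rw [show zd D (0 : (WL L W3).Point) = 0 from zd_zero D] at h1
      linear_combination -h1
    have e4 : w = -(b3 + b3) := by
      have : (2 ^ e) • a3 = -b3 := eq_neg_of_add_eq_zero_left h
      rw [hw, this]
      abel
    have e5 := hDF.zw3
    rw [← hw, e4, e3] at e5
    apply hDF.ne
    have h1 : zd D b3 = -(2 ^ e * zd D a3) := by linear_combination -e5
    rw [h1]
    have : (4 : L) ^ e = (2 ^ e) ^ 2 := by
      rw [← pow_mul, mul_comm e 2, pow_mul]
      norm_num
    rw [this]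
    ring
  intro R hR hR0
  have hd1 : 1 ≤ R.degreeOf 1 := deg1_pos y x htry R hR hR0
  set d := R.degreeOf 1 with hd
  obtain ⟨F, hFfd, hFr, -, -, -, -, hFw⟩ := hF k κ L W2 W3 D0 e g g' a2 b2 a3 b3 hCD
  have hyF : y ∈ F := by
    rcases hFw with h | h
    · exact absurd h hw0
    · exact h.1
  obtain ⟨Q, hQi, hQ0, hQ1, hQv⟩ := hI κ L x y (8 * D0 ^ 2) F R hCD.tra hFfd hFr hyF hR hR0
  obtain ⟨-, -, hQn⟩ := (hG κ L x y Q hQi).1 hCD.tra hQv
  set μ := 8 * D0 ^ 2 with hμ
  have hrel : Rel κ y x μ d := ⟨Q, hQi.ne_zero, hQ0, hQ1, hQv⟩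
  -- the equation for `l`
  set q0 := aeval ![y, x] (pderiv 0 Q) with hq0
  set q1 := aeval ![y, x] (pderiv 1 Q) with hq1
  have hch : 0 = q0 * (ps w * l) + q1 * ps a2 := by
    have h1 := chain D y x Q
    rw [hQv, map_zero, hDy, hDx] at h1
    exact h1
  have hBw : ps w ^ 2 = Bf (WL L W3) y := ps_sq w hw0
  have hBa : ps a2 ^ 2 = Bf (WL L W2) x := ps_sq a2 hCD.a2n
  have heq : l ^ 2 * (q0 ^ 2 * Bf (WL L W3) y) = q1 ^ 2 * Bf (WL L W2) x := by
    rw [← hBw, ← hBa]
    linear_combination (q1 * ps a2 - q0 * (ps w * l)) * hch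
  let c2 : Fin 2 → Fin 3 := Fin.castSucc
  have hc2 : Function.Injective c2 := Fin.castSucc_injective 2
  let G : MvPolynomial (Fin 3) κ :=
    X 2 ^ 2 * (rename c2 (pderiv 0 Q) ^ 2 * BX W3 0) - rename c2 (pderiv 1 Q) ^ 2 * BX W2 1
  have hev : ∀ c : L, aeval ![y, x, c] G =
      c ^ 2 * (q0 ^ 2 * Bf (WL L W3) y) - q1 ^ 2 * Bf (WL L W2) x := by
    intro c
    have hcomp : (![y, x, c] : Fin 3 → L) ∘ c2 = ![y, x] := by
      funext i
      fin_cases i <;> rfl
    simp only [G, map_sub, map_mul, map_pow, aeval_X, aeval_rename, hcomp, ev_BX]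
    rfl
  have hren : ∀ (p : MvPolynomial (Fin 2) κ) (i : Fin 2),
      degreeOf (c2 i) (rename c2 p) = degreeOf i p := fun p i =>
    degreeOf_rename_of_injective hc2 i
  have hren2 : ∀ (p : MvPolynomial (Fin 2) κ), degreeOf 2 (rename c2 p) = 0 := by
    intro p
    by_contra hne
    have hmem : (2 : Fin 3) ∈ (rename c2 p).vars := by
      rw [vars_def, Multiset.mem_toFinset, ← Multiset.count_pos, ← degreeOf_def]
      omega
    have := vars_rename c2 p hmem
    rw [Finset.mem_image] at this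
    obtain ⟨a, -, ha⟩ := this
    fin_cases a <;> simp [c2] at ha
  have hG0 : G.degreeOf 0 ≤ 2 * μ + 3 := by
    refine (degreeOf_sub_le _ _ _).trans (max_le ?_ ?_)
    · refine (degreeOf_mul_le _ _ _).trans ?_
      have a1 : degreeOf (0 : Fin 3) (X 2 ^ 2 : MvPolynomial (Fin 3) κ) ≤ 0 := by
        refine (degreeOf_pow_le _ _ _).trans ?_
        rw [degreeOf_X]; simp
      have a2' : degreeOf (0 : Fin 3) (rename c2 (pderiv 0 Q) ^ 2 * BX W3 0 :
          MvPolynomial (Fin 3) κ) ≤ 2 * μ + 3 := by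
        refine (degreeOf_mul_le _ _ _).trans ?_
        have b1 := deg_BX (κ := κ) W3 0 0
        have b2 := degreeOf_pow_le (0 : Fin 3) (rename c2 (pderiv 0 Q)) 2
        have b3 := hren (pderiv 0 Q) 0
        have b4 := deg_pderiv 0 0 Q
        have b5 : c2 0 = 0 := rfl
        rw [b5] at b3
        simp only [if_true] at b1
        omega
      omega
    · refine (degreeOf_mul_le _ _ _).trans ?_
      have b1 := deg_BX (κ := κ) W2 1 0
      have b2 := degreeOf_pow_le (0 : Fin 3) (rename c2 (pderiv 1 Q)) 2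
      have b3 := hren (pderiv 1 Q) 0
      have b4 := deg_pderiv 1 0 Q
      have b5 : c2 0 = 0 := rfl
      rw [b5] at b3
      simp at b1
      omega
  have hG1 : G.degreeOf 1 ≤ 2 * d + 3 := by
    refine (degreeOf_sub_le _ _ _).trans (max_le ?_ ?_)
    · refine (degreeOf_mul_le _ _ _).trans ?_
      have a1 : degreeOf (1 : Fin 3) (X 2 ^ 2 : MvPolynomial (Fin 3) κ) ≤ 0 := by
        refine (degreeOf_pow_le _ _ _).trans ?_
        rw [degreeOf_X]; simp
      have a2' : degreeOf (1 : Fin 3) (rename c2 (pderiv 0 Q) ^ 2 * BX W3 0 :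
          MvPolynomial (Fin 3) κ) ≤ 2 * d + 3 := by
        refine (degreeOf_mul_le _ _ _).trans ?_
        have b1 := deg_BX (κ := κ) W3 0 1
        have b2 := degreeOf_pow_le (1 : Fin 3) (rename c2 (pderiv 0 Q)) 2
        have b3 := hren (pderiv 0 Q) 1
        have b4 := deg_pderiv 0 1 Q
        have b5 : c2 1 = 1 := rfl
        rw [b5] at b3
        simp at b1
        omega
      omega
    · refine (degreeOf_mul_le _ _ _).trans ?_
      have b1 := deg_BX (κ := κ) W2 1 1
      have b2 := degreeOf_pow_le (1 : Fin 3) (rename c2 (pderiv 1 Q)) 2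
      have b3 := hren (pderiv 1 Q) 1
      have b4 := deg_pderiv 1 1 Q
      have b5 : c2 1 = 1 := rfl
      rw [b5] at b3
      simp only [if_true] at b1
      omega
  have hG2 : G.degreeOf 2 ≤ 2 := by
    refine (degreeOf_sub_le _ _ _).trans (max_le ?_ ?_)
    · refine (degreeOf_mul_le _ _ _).trans ?_
      have a1 : degreeOf (2 : Fin 3) (X 2 ^ 2 : MvPolynomial (Fin 3) κ) ≤ 2 := by
        refine (degreeOf_pow_le _ _ _).trans ?_
        rw [degreeOf_X]; simp
      have a2' : degreeOf (2 : Fin 3) (rename c2 (pderiv 0 Q) ^ 2 * BX W3 0 :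
          MvPolynomial (Fin 3) κ) ≤ 0 := by
        refine (degreeOf_mul_le _ _ _).trans ?_
        have b1 := deg_BX (κ := κ) W3 0 2
        have b2 := degreeOf_pow_le (2 : Fin 3) (rename c2 (pderiv 0 Q)) 2
        have b3 := hren2 (pderiv 0 Q)
        simp at b1
        omega
      omega
    · refine (degreeOf_mul_le _ _ _).trans ?_
      have b1 := deg_BX (κ := κ) W2 1 2
      have b2 := degreeOf_pow_le (2 : Fin 3) (rename c2 (pderiv 1 Q)) 2
      have b3 := hren2 (pderiv 1 Q)
      simp at b1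
      omega
  have hGv : aeval ![y, x, l] G = 0 := by
    rw [hev, heq, sub_self]
  have hGn : ∃ c : L, aeval ![y, x, c] G ≠ 0 := by
    by_contra hcon
    push Not at hcon
    have h0 := hcon 0
    have h1 := hcon 1
    rw [hev] at h0 h1
    have h2 : q0 ^ 2 * Bf (WL L W3) y = 0 := by linear_combination h1 - h0
    rcases mul_eq_zero.mp h2 with h3 | h3
    · exact hQn (pow_eq_zero_iff (two_ne_zero) |>.mp h3)
    · rw [← hBw] at h3
      exact hps (pow_eq_zero_iff (two_ne_zero) |>.mp h3)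
  have hfin := hE κ L x y x l μ d 1 1 (2 * μ + 3) (2 * d + 3) 2 G hCD.tra hrel (rel_xx κ x)
    hG0 hG1 hG2 hGv hGn
  refine ⟨hd1, rel_mono hrel (by omega) ?_, rel_mono hfin ?_ ?_⟩
  · nlinarith [Nat.zero_le (4 * μ * (2 * μ + 8) + 4 * μ + μ)]
  · nlinarith [Nat.zero_le (4 * μ * (2 * μ + 8))]
  · have h1 : 2 * (μ * 1 * 2) * ((2 * μ + 3) * d + (2 * d + 3) * 1) ≤
        4 * μ * ((2 * μ + 8) * d) := by
      have : (2 * μ + 3) * d + (2 * d + 3) * 1 ≤ (2 * μ + 8) * d := by nlinarith
      calc 2 * (μ * 1 * 2) * ((2 * μ + 3) * d + (2 * d + 3) * 1)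
          = 4 * μ * ((2 * μ + 3) * d + (2 * d + 3) * 1) := by ring
        _ ≤ 4 * μ * ((2 * μ + 8) * d) := Nat.mul_le_mul_left _ this
    refine h1.trans ?_
    have : 4 * μ * ((2 * μ + 8) * d) = 4 * μ * (2 * μ + 8) * d := by ring
    rw [this]
    exact Nat.mul_le_mul_right _ (by omega)

end

end Pool.Agent.Helper48.T3.CLAM
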